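import Pool.Agent.helper50.SP.A

set_option autoImplicit false

/-!
# Arithmetic closure of the class of functions computed by bounded loop programs
-/

namespace Pool.Agent.helper12.SP

section C

variable {α : Type} [Ctx α] {bd f g h k : α → ℕ}

/-! ### Variables -/

theorem reg_prod {α β : Type} [Ctx α] [Ctx β] (x : α × β) (i : ℕ) :
    Ctx.reg x i = if i < Ctx.dim α then Ctx.reg x.1 i else Ctx.reg x.2 (i - Ctx.dim α) := rfl

theorem dim_prod {α β : Type} [Ctx α] [Ctx β] : Ctx.dim (α × β) = Ctx.dim α + Ctx.dim β := rfl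

theorem dim_nat : Ctx.dim ℕ = 1 := rfl

theorem reg_nat (a i : ℕ) : Ctx.reg a i = a := rfl

theorem Cmp.congr (hf : Cmp bd f) (h : ∀ a, f a = g a) : Cmp bd g := by
  have : f = g := funext h
  rwa [← this]

/-- the context `α × ℕ × ℕ` of a recursion: a function of the old variables -/
theorem Cmp.wk (hf : Cmp bd f) :
    Cmp (fun x : α × ℕ × ℕ => bd x.1 + x.2.1 + x.2.2) (fun x => f x.1) := by
  refine Cmp.reindex hf (fun x : α × ℕ × ℕ => x.1) ?_ ?_
  · intro i hi
    refine ⟨i, by rw [dim_prod]; omega, fun x => ?_⟩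
    rw [reg_prod, if_pos hi]
  · exact Pb.of_le (fun x => by omega) Pb.self

theorem Cmp.y (bd : α → ℕ) :
    Cmp (fun x : α × ℕ × ℕ => bd x.1 + x.2.1 + x.2.2) (fun x => x.2.1) := by
  refine Cmp.reindex (Cmp.var Pb.self) (fun x : α × ℕ × ℕ => x.2.1) ?_ ?_
  · intro i hi
    refine ⟨Ctx.dim α, by rw [dim_prod, dim_prod, dim_nat]; omega, fun x => ?_⟩
    rw [reg_prod, if_neg (by omega), reg_prod, if_pos (by rw [dim_nat]; omega)]
    rfl
  · exact Pb.of_le (fun x => by omega) Pb.self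

theorem Cmp.ih (bd : α → ℕ) :
    Cmp (fun x : α × ℕ × ℕ => bd x.1 + x.2.1 + x.2.2) (fun x => x.2.2) := by
  refine Cmp.reindex (Cmp.var Pb.self) (fun x : α × ℕ × ℕ => x.2.2) ?_ ?_
  · intro i hi
    refine ⟨Ctx.dim α + 1, by rw [dim_prod, dim_prod, dim_nat]; omega, fun x => ?_⟩
    rw [reg_prod, if_neg (by omega), reg_prod, if_neg (by rw [dim_nat]; omega)]
    rfl
  · exact Pb.of_le (fun x => by omega) Pb.self

/-- the context `α × ℕ` of a sum or a bounded quantifier: a function of the old variables -/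
theorem Cmp.wk1 (hf : Cmp bd f) :
    Cmp (fun x : α × ℕ => bd x.1 + x.2) (fun x => f x.1) := by
  refine Cmp.reindex hf (fun x : α × ℕ => x.1) ?_ ?_
  · intro i hi
    refine ⟨i, by rw [dim_prod]; omega, fun x => ?_⟩
    rw [reg_prod, if_pos hi]
  · exact Pb.of_le (fun x => by omega) Pb.self

theorem Cmp.i (bd : α → ℕ) :
    Cmp (fun x : α × ℕ => bd x.1 + x.2) (fun x => x.2) := by
  refine Cmp.reindex (Cmp.var Pb.self) (fun x : α × ℕ => x.2) ?_ ?_
  · intro i hi
    refine ⟨Ctx.dim α, by rw [dim_prod, dim_nat]; omega, fun x => ?_⟩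
    rw [reg_prod, if_neg (by omega)]
    rfl
  · exact Pb.of_le (fun x => by omega) Pb.self

/-- from the context of a sum to the context of a recursion -/
theorem Cmp.wk2 {h : α × ℕ → ℕ} (hh : Cmp (fun x : α × ℕ => bd x.1 + x.2) h) :
    Cmp (fun x : α × ℕ × ℕ => bd x.1 + x.2.1 + x.2.2) (fun x => h (x.1, x.2.1)) := by
  refine Cmp.reindex hh (fun x : α × ℕ × ℕ => (x.1, x.2.1)) ?_ ?_
  · intro i hi
    rw [dim_prod, dim_nat] at hi
    refine ⟨i, by rw [dim_prod, dim_prod, dim_nat]; omega, fun x => ?_⟩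
    rw [reg_prod, reg_prod]
    by_cases h1 : i < Ctx.dim α
    · rw [if_pos h1, if_pos h1]
    · rw [if_neg h1, if_neg h1, reg_prod, if_pos (by rw [dim_nat]; omega)]
  · exact Pb.of_le (fun x => by simp) Pb.self

/-! ### Recursion in a convenient form -/

theorem Cmp.recF (F : α → ℕ → ℕ) {g m b : α → ℕ} {h : α × ℕ × ℕ → ℕ} (hg : Cmp bd g)
    (hm : Cmp bd m) (hh : Cmp (fun x : α × ℕ × ℕ => bd x.1 + x.2.1 + x.2.2) h)
    (h0 : ∀ a, F a 0 = g a) (hs : ∀ a y, F a (y + 1) = h (a, y, F a y)) (hb : Pb bd b)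
    (hle : ∀ a y, y ≤ m a → F a y ≤ b a) : Cmp bd (fun a => F a (m a)) := by
  have key : ∀ a y, (Nat.rec (motive := fun _ => ℕ) (g a) (fun y ih => h (a, y, ih)) y : ℕ) =
      F a y := by
    intro a y
    induction y with
    | zero => exact (h0 a).symm
    | succ y ih =>
      rw [hs a y, ← ih]
  obtain ⟨C, hC⟩ := hb
  have h1 := Cmp.natRec hg hm hh ⟨C, fun a y hy => by
    rw [key]
    exact (hle a y hy).trans (hC a)⟩
  exact h1.congr fun a => key a _

/-! ### Arithmetic -/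

theorem Cmp.const (n : ℕ) : Cmp bd (fun _ => n) := by
  induction n with
  | zero => exact Cmp.zero
  | succ n ih => exact Cmp.succ ih

theorem Cmp.add (hf : Cmp bd f) (hg : Cmp bd g) : Cmp bd (fun a => f a + g a) :=
  Cmp.recF (fun a y => f a + y) hf hg (Cmp.ih bd).succ (fun _ => rfl) (fun _ _ => rfl)
    (Pb.add hf.pb hg.pb) (fun a y hy => by omega)

theorem Cmp.mul (hf : Cmp bd f) (hg : Cmp bd g) : Cmp bd (fun a => f a * g a) :=
  Cmp.recF (fun a y => f a * y) Cmp.zero hg ((Cmp.ih bd).add hf.wk) (fun _ => rfl)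
    (fun _ _ => rfl) (Pb.mul hf.pb hg.pb) (fun _ _ hy => Nat.mul_le_mul_left _ hy)

theorem Cmp.pred (hf : Cmp bd f) : Cmp bd (fun a => f a - 1) :=
  Cmp.recF (fun _ y => y - 1) Cmp.zero hf (Cmp.y bd) (fun _ => rfl) (fun _ _ => rfl) hf.pb
    (fun a y hy => by omega)

theorem Cmp.sub (hf : Cmp bd f) (hg : Cmp bd g) : Cmp bd (fun a => f a - g a) :=
  Cmp.recF (fun a y => f a - y) hf hg (Cmp.ih bd).pred (fun _ => rfl) (fun _ _ => rfl) hf.pb
    (fun a y hy => by omega)

theorem Cmp.min (hf : Cmp bd f) (hg : Cmp bd g) : Cmp bd (fun a => min (f a) (g a)) :=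
  (hf.sub (hf.sub hg)).congr fun _ => Nat.sub_sub_eq_min _ _

theorem Cmp.pow_const (hf : Cmp bd f) (n : ℕ) : Cmp bd (fun a => f a ^ n) := by
  induction n with
  | zero => exact Cmp.const 1
  | succ n ih => exact ih.mul hf

theorem Cmp.sum {h : α × ℕ → ℕ} (hf : Cmp bd f)
    (hh : Cmp (fun x : α × ℕ => bd x.1 + x.2) h) :
    Cmp bd (fun a => ∑ i ∈ Finset.range (f a), h (a, i)) := by
  obtain ⟨C, hC⟩ := hh.pb
  refine Cmp.recF (fun a y => ∑ i ∈ Finset.range y, h (a, i))
    (b := fun a => f a * (C + (bd a + f a)) ^ C) Cmp.zero hf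
    ((Cmp.ih bd).add hh.wk2) (fun _ => rfl) (fun _ _ => Finset.sum_range_succ _ _) ?_ ?_
  · exact Pb.mul hf.pb (Pb.pow (Pb.add (Pb.const C) (Pb.add Pb.self hf.pb)) C)
  · intro a y hy
    have h1 : ∀ i ∈ Finset.range y, h (a, i) ≤ (C + (bd a + f a)) ^ C := by
      intro i hi
      have h2 := Finset.mem_range.1 hi
      refine (hC (a, i)).trans (Nat.pow_le_pow_left ?_ C)
      simp only
      omega
    refine (Finset.sum_le_card_nsmul _ _ _ h1).trans ?_
    rw [Finset.card_range, smul_eq_mul]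
    exact Nat.mul_le_mul_right _ hy

open Classical in
/-- the predicate `P` is decided by programs as in `Cmp` -/
def CmpP (bd : α → ℕ) (P : α → Prop) : Prop := Cmp bd (fun a => if P a then 1 else 0)

theorem CmpP.congr {P Q : α → Prop} (hP : CmpP bd P) (h : ∀ a, P a ↔ Q a) : CmpP bd Q := by
  have : P = Q := funext fun a => propext (h a)
  rwa [← this]

theorem Cmp.ite {P : α → Prop} [DecidablePred P] (hP : CmpP bd P) (hf : Cmp bd f)
    (hg : Cmp bd g) : Cmp bd (fun a => if P a then f a else g a) := by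
  classical
  refine (Cmp.recF (fun a y => if y = 0 then g a else f a) (b := fun a => f a + g a) hg hP
    hf.wk (fun _ => rfl) (fun _ _ => rfl) (Pb.add hf.pb hg.pb) ?_).congr ?_
  · intro a y _
    split_ifs <;> omega
  · intro a
    by_cases h : P a <;> simp [h]

theorem CmpP.le (hf : Cmp bd f) (hg : Cmp bd g) : CmpP bd (fun a => f a ≤ g a) := by
  refine ((Cmp.const 1).sub (hf.sub hg)).congr fun a => ?_
  split_ifs <;> omega

theorem CmpP.lt (hf : Cmp bd f) (hg : Cmp bd g) : CmpP bd (fun a => f a < g a) :=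
  CmpP.le hf.succ hg

theorem CmpP.not {P : α → Prop} (hP : CmpP bd P) : CmpP bd (fun a => ¬ P a) := by
  classical
  refine ((Cmp.const 1).sub hP).congr fun a => ?_
  by_cases h : P a <;> simp [h]

theorem CmpP.and {P Q : α → Prop} (hP : CmpP bd P) (hQ : CmpP bd Q) :
    CmpP bd (fun a => P a ∧ Q a) := by
  classical
  refine (Cmp.mul hP hQ).congr fun a => ?_
  by_cases h : P a <;> by_cases h' : Q a <;> simp [h, h']

theorem CmpP.eq (hf : Cmp bd f) (hg : Cmp bd g) : CmpP bd (fun a => f a = g a) :=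
  ((CmpP.le hf hg).and (CmpP.le hg hf)).congr fun _ => ⟨fun h => le_antisymm h.1 h.2,
    fun h => ⟨h.le, h.ge⟩⟩

theorem CmpP.ball {P : α × ℕ → Prop} (hf : Cmp bd f)
    (hP : CmpP (fun x : α × ℕ => bd x.1 + x.2) P) : CmpP bd (fun a => ∀ i < f a, P (a, i)) := by
  classical
  refine (CmpP.eq (Cmp.sum hf (CmpP.not hP)) Cmp.zero).congr fun a => ?_
  rw [Finset.sum_eq_zero_iff]
  constructor
  · intro h i hi
    have h1 := h i (Finset.mem_range.2 hi)
    by_contra hc
    simp [hc] at h1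
  · intro h i hi
    have h1 := h i (Finset.mem_range.1 hi)
    simp [h1]

theorem CmpP.bex {P : α × ℕ → Prop} (hf : Cmp bd f)
    (hP : CmpP (fun x : α × ℕ => bd x.1 + x.2) P) : CmpP bd (fun a => ∃ i < f a, P (a, i)) := by
  refine (CmpP.not (CmpP.ball hf (CmpP.not hP))).congr fun a => ?_
  push Not
  rfl

theorem sum_ind (n m : ℕ) (h : m ≤ n) :
    ∑ i ∈ Finset.range n, (if i < m then 1 else 0) = m := by
  rw [Finset.sum_boole, Nat.cast_id]
  have : {x ∈ Finset.range n | x < m} = Finset.range m := by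
    ext x
    simp only [Finset.mem_filter, Finset.mem_range]
    omega
  rw [this, Finset.card_range]

theorem Cmp.div (hf : Cmp bd f) (hg : Cmp bd g) : Cmp bd (fun a => f a / g a) := by
  classical
  have h1 : CmpP (fun x : α × ℕ => bd x.1 + x.2) (fun x => (x.2 + 1) * g x.1 ≤ f x.1) :=
    CmpP.le ((Cmp.i bd).succ.mul hg.wk1) hf.wk1
  refine (Cmp.ite (CmpP.le hg Cmp.zero) Cmp.zero (Cmp.sum hf h1)).congr fun a => ?_
  by_cases h0 : g a ≤ 0
  · rw [if_pos h0, Nat.le_zero.1 h0, Nat.div_zero]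
  · rw [if_neg h0, ← sum_ind (f a) (f a / g a) (Nat.div_le_self _ _)]
    refine Finset.sum_congr rfl fun i _ => ?_
    have h2 : (i + 1) * g a ≤ f a ↔ i < f a / g a := by
      rw [← Nat.le_div_iff_mul_le (by omega)]
      omega
    simp only [h2]

theorem Cmp.mod (hf : Cmp bd f) (hg : Cmp bd g) : Cmp bd (fun a => f a % g a) :=
  (hf.sub (hg.mul (hf.div hg))).congr fun _ => (Nat.mod_eq_sub_mul_div).symm

theorem CmpP.prime (hf : Cmp bd f) : CmpP bd (fun a => (f a).Prime) := by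
  have h1 : CmpP (fun x : α × ℕ => bd x.1 + x.2) (fun x => ¬ (2 ≤ x.2 ∧ f x.1 % x.2 = 0)) :=
    CmpP.not (CmpP.and (CmpP.le (Cmp.const 2) (Cmp.i bd))
      (CmpP.eq (hf.wk1.mod (Cmp.i bd)) Cmp.zero))
  refine (CmpP.and (CmpP.le (Cmp.const 2) hf) (CmpP.ball hf h1)).congr fun a => ?_
  rw [Nat.prime_def_lt']
  refine and_congr_right fun _ => ?_
  constructor
  · intro h m hm hm' hd
    exact h m hm' ⟨hm, Nat.mod_eq_zero_of_dvd hd⟩
  · rintro h i hi ⟨h2, h3⟩
    exact h i h2 hi (Nat.dvd_of_mod_eq_zero h3)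

/-! ### The functions of the simulation algorithm -/

theorem pw_succ (N a r : ℕ) : pw N a (r + 1) = Min.min (pw N a r * a) N := by
  unfold pw
  rcases Nat.eq_zero_or_pos a with rfl | ha
  · simp
  · rcases le_total (a ^ r) N with h | h
    · rw [min_eq_left h, pow_succ]
    · rw [min_eq_right h, min_eq_right (h.trans (Nat.pow_le_pow_right ha (Nat.le_succ r))),
        min_eq_right (Nat.le_mul_of_pos_right N ha)]

theorem Cmp.pw (hf : Cmp bd f) (hg : Cmp bd g) (hh : Cmp bd h) :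
    Cmp bd (fun a => pw (f a) (g a) (h a)) := by
  refine Cmp.recF (fun a y => SP.pw (f a) (g a) y) (b := f) (g := fun a => Min.min 1 (f a))
    (h := fun x => Min.min (x.2.2 * g x.1) (f x.1)) (Cmp.min (Cmp.const 1) hf) hh
    (Cmp.min ((Cmp.ih bd).mul hg.wk) hf.wk) (fun a => by simp [SP.pw]) (fun a y => pw_succ _ _ _)
    hf.pb (fun a y _ => min_le_right _ _)

theorem Cmp.dg (hf : Cmp bd f) (hg : Cmp bd g) (hh : Cmp bd h) (hk : Cmp bd k) :
    Cmp bd (fun a => dg (f a) (g a) (h a) (k a)) :=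
  (hh.div (hf.pw hg hk)).mod hg

theorem Cmp.np (hf : Cmp bd f) : Cmp bd (fun a => np (f a)) := by
  refine Cmp.recF (fun a y => (Nat.rec (motive := fun _ => ℕ) (f a)
    (fun _ ih => if ih.Prime then ih else ih + 1) y : ℕ)) (b := fun a => f a + f a)
    (h := fun x => if (x.2.2).Prime then x.2.2 else x.2.2 + 1) hf hf
    (Cmp.ite (CmpP.prime (Cmp.ih bd)) (Cmp.ih bd) (Cmp.ih bd).succ)
    (fun a => rfl) (fun a y => rfl) (Pb.add hf.pb hf.pb) (fun a y hy => ?_)
  have h1 : (Nat.rec (motive := fun _ => ℕ) (f a)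
    (fun _ ih => if ih.Prime then ih else ih + 1) y : ℕ) ≤ f a + y := by
    clear hy
    induction y with
    | zero => exact le_rfl
    | succ y ih =>
      simp only
      split_ifs <;> omega
  exact h1.trans (by omega)

theorem Cmp.log (hf : Cmp bd f) : Cmp bd (fun a => Nat.log 2 (f a)) := by
  classical
  have h1 : CmpP (fun x : α × ℕ => bd x.1 + x.2)
      (fun x => SP.pw (f x.1 + 1) 2 (x.2 + 1) ≤ f x.1) :=
    CmpP.le (Cmp.pw hf.wk1.succ (Cmp.const 2) (Cmp.i bd).succ) hf.wk1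
  refine (Cmp.sum hf h1).congr fun a => ?_
  rw [← sum_ind (f a) (Nat.log 2 (f a)) (Nat.log_le_self _ _)]
  refine Finset.sum_congr rfl fun i hi => ?_
  have h2 : f a ≠ 0 := by
    have := Finset.mem_range.1 hi
    omega
  have h3 : SP.pw (f a + 1) 2 (i + 1) ≤ f a ↔ i < Nat.log 2 (f a) := by
    rw [← Nat.add_one_le_iff, Nat.le_log_iff_pow_le (by norm_num) h2]
    unfold SP.pw
    rw [min_le_iff]
    constructor
    · rintro (h | h)
      · exact h
      · omega
    · exact Or.inl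
  simp only [h3]

theorem Cmp.two_pow (hf : Cmp bd f) (h : Pb bd (fun a => 2 ^ f a)) :
    Cmp bd (fun a => 2 ^ f a) :=
  Cmp.recF (fun _ y => 2 ^ y) (Cmp.const 1) hf ((Cmp.ih bd).add (Cmp.ih bd)) (fun _ => rfl)
    (fun a y => by simp only [pow_succ]; omega) h
    (fun a y hy => Nat.pow_le_pow_right (by norm_num) hy)

end C

end Pool.Agent.helper12.SP
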